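import Pool.Agent.H88.MCR.Stmts2

namespace Pool.MCR

open SimpleGraph

theorem ora_aux {V : Type} (T : SimpleGraph V) (S : Set V) (hT : T.IsAcyclic)
    (hS : (T.induce S).Connected) (v u u' : V) (hv : v ∉ S) (hu : u ∈ S) (hu' : u' ∈ S)
    (h1 : T.Adj v u) (h2 : T.Adj v u') : u' = u := by
  classical
  by_contra hne
  obtain ⟨w⟩ := hS.preconnected ⟨u', hu'⟩ ⟨u, hu⟩
  let p : (T.induce S).Path ⟨u', hu'⟩ ⟨u, hu⟩ := w.toPath
  have hp : p.1.IsPath := p.2
  obtain ⟨q, hq, hvq⟩ : ∃ q : T.Walk u' u, q.IsPath ∧ v ∉ q.support := by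
    obtain ⟨f, hf⟩ : ∃ f : (T.induce S) →g T, ∀ x, f x = x.1 :=
      ⟨(SimpleGraph.Embedding.induce (G := T) S).toHom, fun _ => rfl⟩
    have hfi : Function.Injective f := by
      intro a b hab
      rw [hf, hf] at hab
      exact Subtype.ext hab
    refine ⟨(p.1.map f).copy (hf _) (hf _), ?_, ?_⟩
    · rw [SimpleGraph.Walk.isPath_copy]
      exact hp.map hfi
    · intro hmem
      rw [SimpleGraph.Walk.support_copy, SimpleGraph.Walk.support_map] at hmem
      obtain ⟨x, _, hx⟩ := List.mem_map.1 hmem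
      rw [hf] at hx
      exact hv (hx ▸ x.2)
  let r : T.Walk u' u := SimpleGraph.Walk.cons h2.symm (SimpleGraph.Walk.cons h1 SimpleGraph.Walk.nil)
  have hr : r.IsPath := by
    simp only [r, SimpleGraph.Walk.cons_isPath_iff, SimpleGraph.Walk.support_cons,
      SimpleGraph.Walk.support_nil, List.mem_cons, List.not_mem_nil, or_false]
    refine ⟨⟨SimpleGraph.Walk.IsPath.nil, ?_⟩, ?_⟩
    · exact h1.ne
    · rintro (h | h)
      · exact h2.ne h.symm
      · exact hne h
  have heq := (hT.subsingleton_path u' u).elim ⟨q, hq⟩ ⟨r, hr⟩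
  have heq2 : q = r := congrArg Subtype.val heq
  apply hvq
  rw [heq2]
  simp [r]

theorem ora_thm : ORA_S := by
  intro V _ T S hT hS hne
  classical
  obtain ⟨x, hx⟩ : ∃ x, x ∉ S := by
    by_contra h
    push Not at h
    exact hne (Set.eq_univ_of_forall h)
  obtain ⟨⟨y, hy⟩⟩ := hS.nonempty
  obtain ⟨p⟩ := hT.1.preconnected y x
  obtain ⟨d, _, hd1, hd2⟩ := p.exists_boundary_dart S hy hx
  refine ⟨d.snd, hd2, ⟨d.fst, hd1, d.adj.symm, ?_⟩, ?_⟩
  · intro u' hu' hadj
    exact ora_aux T S hT.2 hS d.snd d.fst u' hd2 hd1 hu' d.adj.symm hadj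
  · have hs : (T.induce ({d.snd} : Set V)).Preconnected := by
      intro a b
      have : a = b := Subtype.ext (by
        rw [Set.mem_singleton_iff.1 a.2, Set.mem_singleton_iff.1 b.2])
      rw [this]
    have h := SimpleGraph.connected_induce_union (G := T) hs hS.preconnected
      (Set.mem_singleton _) hd1 d.adj.symm
    rwa [Set.singleton_union] at h

end Pool.MCR
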